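import Mathlib

/-!
# Affine projections of polynomials: the decision problem
-/

set_option autoImplicit false

namespace Pool.Agent.Q230.AP

open MvPolynomial

/-- The polynomial in the variables `x_0, ..., x_{n-1}` given by a list of monomials; a pair
`(c, [i₁, ..., i_k])` stands for the monomial `c x_{i₁} ⋯ x_{i_k}`. -/
noncomputable def toPoly (n : ℕ) (p : List (ℤ × List ℕ)) : MvPolynomial (Fin n) ℤ :=
  (p.map fun t => C t.1 * (t.2.map fun i => if h : i < n then X ⟨i, h⟩ else 0).prod).sum

/-- All variables of the list have an index less than `n`. -/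
def Ok (n : ℕ) (p : List (ℤ × List ℕ)) : Prop := ∀ t ∈ p, ∀ i ∈ t.2, i < n

/-- The affine polynomial projection problem.  The input is the number `n` of variables and two
polynomials `f`, `g` with integer coefficients in `n` variables; the question is whether there are
a real `n × n` matrix `A` and a vector `b` with `f(x) = g(A x + b)` for all real `x`. -/
def AffineProjection (q : ℕ × List (ℤ × List ℕ) × List (ℤ × List ℕ)) : Prop :=
  Ok q.1 q.2.1 ∧ Ok q.1 q.2.2 ∧
    ∃ (A : Matrix (Fin q.1) (Fin q.1) ℝ) (b : Fin q.1 → ℝ), ∀ x : Fin q.1 → ℝ,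
      aeval x (toPoly q.1 q.2.1) = aeval (A.mulVec x + b) (toPoly q.1 q.2.2)

end Pool.Agent.Q230.AP
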