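import Pool.Agent.Q230.QF.Core
import Pool.Agent.Q230.AP.Defs
import Pool.Agent.Q230.SN.Mem

/-!
# Affine projections: correctness of the reduction
-/

set_option autoImplicit false

namespace Pool.Agent.Q230.AP

open Finset Pool.Agent.NPC Pool.Agent.NPC.ER Pool.Agent.H78R3.TSV Pool.Agent.Q230.QF

/-- The value of a list of monomials. -/
noncomputable def val (v : ℕ → ℝ) (p : List (ℤ × List ℕ)) : ℝ :=
  (p.map fun t => (t.1 : ℝ) * (t.2.map v).prod).sum

theorem aeval_toPoly {n : ℕ} {p : List (ℤ × List ℕ)} (hp : Ok n p) (x : Fin n → ℝ) (v : ℕ → ℝ)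
    (hv : ∀ i : Fin n, v i = x i) : MvPolynomial.aeval x (toPoly n p) = val v p := by
  have key : ∀ l : List ℕ, (∀ i ∈ l, i < n) → MvPolynomial.aeval x
      (l.map fun i => if h : i < n then (MvPolynomial.X ⟨i, h⟩ : MvPolynomial (Fin n) ℤ)
        else 0).prod = (l.map v).prod := by
    intro l
    induction l with
    | nil => intro _; simp
    | cons i l ih =>
      intro h
      have h1 := h i List.mem_cons_self
      rw [List.map_cons, List.prod_cons, map_mul, ih fun j hj => h j (List.mem_cons_of_mem _ hj),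
        List.map_cons, List.prod_cons, dif_pos h1, MvPolynomial.aeval_X, ← hv]
  unfold toPoly val
  induction p with
  | nil => simp
  | cons t p ih =>
    have h1 := hp t List.mem_cons_self
    have h2 := ih fun t ht => hp t (List.mem_cons_of_mem _ ht)
    rw [List.map_cons, List.sum_cons, map_add, h2, List.map_cons, List.sum_cons, map_mul, key _ h1]
    congr 2
    simp

/-- The product of two terms, times `-m`. -/
def sqt (m : ℕ) (t t' : QT) : ℤ × List ℕ :=
  (-(m : ℤ) * (t.1 * t'.1), [t.2.1, t.2.2, t'.2.1, t'.2.2])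

/-- The three terms of a constraint. -/
def trm (g : QC) : List QT := [g.1, g.2.1, g.2.2]

/-- The square of a constraint, times `-m`. -/
def sqs (m : ℕ) (g : QC) : List (ℤ × List ℕ) :=
  (trm g).flatMap fun t => (trm g).map fun t' => sqt m t t'

/-- The quartic form. -/
def quart (S : List ER.Con) : List (ℤ × List ℕ) :=
  (1, [aix S, aix S, 0, 0]) :: (gsys (tsys S)).flatMap fun g => sqs (gsys (tsys S)).length g

/-- The instance. -/
def instP (S : List ER.Con) : ℕ × List (ℤ × List ℕ) × List (ℤ × List ℕ) :=
  (hn (tsys S), [((1 : ℤ), [0, 0, 0, 0])], quart S)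

theorem val_append (v : ℕ → ℝ) (p p' : List (ℤ × List ℕ)) :
    val v (p ++ p') = val v p + val v p' := by simp [val]

theorem val_sqs (v : ℕ → ℝ) (m : ℕ) (g : QC) :
    4 * val v (sqs m g) = -(m : ℝ) * (gev v v g * gev v v g) := by
  simp only [val, sqs, trm, sqt, List.flatMap_cons, List.flatMap_nil, List.map_cons, List.map_nil,
    List.append_nil, List.cons_append, List.nil_append, List.sum_cons, List.sum_nil,
    List.prod_cons, List.prod_nil, gev, tev, bev]
  push_cast
  ring

theorem val_quart (S : List ER.Con) (v : ℕ → ℝ) : 4 * val v (quart S) =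
    bev v v (aix S, 0) * bev v v (aix S, 0) - ((gsys (tsys S)).length : ℝ) *
      ((gsys (tsys S)).map (fun g => gev v v g * gev v v g)).sum := by
  have key : ∀ (m : ℕ) (G : List QC), 4 * val v (G.flatMap fun g => sqs m g) =
      -(m : ℝ) * (G.map (fun g => gev v v g * gev v v g)).sum := by
    intro m G
    induction G with
    | nil => simp [val]
    | cons g G ih =>
      rw [List.flatMap_cons, val_append, mul_add, ih, val_sqs, List.map_cons, List.sum_cons]
      ring
  have h1 : val v (quart S) = (v (aix S) * v 0) ^ 2 +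
      val v ((gsys (tsys S)).flatMap fun g => sqs (gsys (tsys S)).length g) := by
    unfold quart
    generalize (gsys (tsys S)).flatMap (fun g => sqs (gsys (tsys S)).length g) = F
    simp only [val, List.map_cons, List.sum_cons, List.map_nil, List.prod_cons, List.prod_nil]
    push_cast
    ring
  rw [h1, mul_add, key]
  unfold bev
  ring

theorem bev_smul (s : ℝ) (v : ℕ → ℝ) (p : ℕ × ℕ) :
    bev (fun i => s * v i) (fun i => s * v i) p = s ^ 2 * bev v v p := by
  unfold bev
  ring

theorem gev_smul (s : ℝ) (v : ℕ → ℝ) (g : QC) :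
    gev (fun i => s * v i) (fun i => s * v i) g = s ^ 2 * gev v v g := by
  unfold gev tev
  rw [bev_smul, bev_smul, bev_smul]
  ring

theorem val_quart_smul (S : List ER.Con) (s : ℝ) (v : ℕ → ℝ) :
    val (fun i => s * v i) (quart S) = s ^ 4 * val v (quart S) := by
  have h1 := val_quart S (fun i => s * v i)
  have h2 := val_quart S v
  simp only [bev_smul, gev_smul] at h1
  have h3 : ((gsys (tsys S)).map (fun g => s ^ 2 * gev v v g * (s ^ 2 * gev v v g))).sum =
      s ^ 4 * ((gsys (tsys S)).map (fun g => gev v v g * gev v v g)).sum := by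
    rw [← List.sum_map_mul_left]
    congr 1
    refine List.map_congr_left fun g _ => ?_
    ring
  rw [h3] at h1
  generalize ((gsys (tsys S)).map (fun g => gev v v g * gev v v g)).sum = Q at *
  generalize ((gsys (tsys S)).length : ℝ) = m at *
  generalize val (fun i => s * v i) (quart S) = V at *
  generalize val v (quart S) = W at *
  generalize bev v v (aix S, 0) = b at *
  linear_combination h1 / 4 - s ^ 4 * h2 / 4

theorem ok_quart (S : List ER.Con) : Ok (hn (tsys S)) (quart S) := by
  have hn0 : 0 < hn (tsys S) := by simp [hn]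
  intro t ht
  unfold quart at ht
  rw [List.mem_cons, List.mem_flatMap] at ht
  rcases ht with rfl | ⟨g, hg, ht⟩
  · intro i hi
    simp only [List.mem_cons, List.not_mem_nil, or_false] at hi
    rcases hi with rfl | rfl | rfl | rfl
    · exact aix_lt S
    · exact aix_lt S
    · exact hn0
    · exact hn0
  · have hok := gsys_ok (tsys S) g hg
    have key : ∀ t ∈ trm g, t.2.1 < hn (tsys S) ∧ t.2.2 < hn (tsys S) := by
      intro t ht
      unfold trm at ht
      simp only [List.mem_cons, List.not_mem_nil, or_false] at ht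
      rcases ht with rfl | rfl | rfl
      · exact hok.1.2
      · exact hok.2.1.2
      · exact hok.2.2.2
    unfold sqs at ht
    rw [List.mem_flatMap] at ht
    obtain ⟨t1, ht1, ht⟩ := ht
    rw [List.mem_map] at ht
    obtain ⟨t2, ht2, rfl⟩ := ht
    intro i hi
    simp only [sqt, List.mem_cons, List.not_mem_nil, or_false] at hi
    rcases hi with rfl | rfl | rfl | rfl
    · exact (key t1 ht1).1
    · exact (key t1 ht1).2
    · exact (key t2 ht2).1
    · exact (key t2 ht2).2

theorem ok_first {n : ℕ} (hn : 0 < n) : Ok n [((1 : ℤ), [0, 0, 0, 0])] := by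
  intro t ht i hi
  rw [List.mem_singleton] at ht
  subst ht
  simp only [List.mem_cons, List.not_mem_nil, or_false, or_self] at hi
  omega

/-- **Correctness of the reduction.** -/
theorem sat_iff_proj (S : List ER.Con) : Sat S ↔ AffineProjection (instP S) := by
  have hn0 : 0 < hn (tsys S) := by simp [hn]
  have hf := ok_first hn0
  have hg := ok_quart S
  unfold AffineProjection instP
  simp only
  constructor
  · intro hS
    refine ⟨hf, hg, ?_⟩
    obtain ⟨v, h0, ha, hv⟩ := sat_core hS
    have hq := val_quart S v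
    have hz : ((gsys (tsys S)).map (fun g => gev v v g * gev v v g)).sum = 0 := by
      apply List.sum_eq_zero
      intro r hr
      obtain ⟨g, hg', rfl⟩ := List.mem_map.1 hr
      rw [hv g hg', zero_mul]
    have hb : 0 < bev v v (aix S, 0) := by
      unfold bev
      simp only [h0]
      positivity
    rw [hz, mul_zero, sub_zero] at hq
    have hc : 0 < val v (quart S) := by nlinarith
    generalize hcc : val v (quart S) = c at *
    obtain ⟨s, hs⟩ : ∃ s : ℝ, s ^ 4 * c = 1 := by
      refine ⟨Real.sqrt (Real.sqrt (1 / c)), ?_⟩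
      rw [show 4 = 2 * 2 from rfl, pow_mul, Real.sq_sqrt (Real.sqrt_nonneg _),
        Real.sq_sqrt (by positivity)]
      field_simp
    refine ⟨Matrix.of fun i j => if j.1 = 0 then s * v i else 0, 0, fun x => ?_⟩
    have hmul : ∀ i, (Matrix.of fun (i j : Fin (hn (tsys S))) => if j.1 = 0 then s * v i
        else 0).mulVec x i = x ⟨0, hn0⟩ * (s * v i) := by
      intro i
      rw [Matrix.mulVec, dotProduct, Finset.sum_eq_single ⟨0, hn0⟩]
      · simp [mul_comm]
      · intro j _ hj
        have : j.1 ≠ 0 := fun h => hj (Fin.ext h)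
        simp [this]
      · intro h; exact absurd (Finset.mem_univ _) h
    rw [aeval_toPoly hf x (fun i => if h : i < hn (tsys S) then x ⟨i, h⟩ else 0)
      (fun i => by simp), aeval_toPoly hg _ (fun i => (x ⟨0, hn0⟩ * s) * v i) (fun i => by
        rw [Pi.add_apply, hmul]
        simp only [Pi.zero_apply]
        ring), val_quart_smul]
    have e1 : (x ⟨0, hn0⟩ * s) ^ 4 * val v (quart S) = x ⟨0, hn0⟩ ^ 4 * (s ^ 4 * c) := by
      rw [hcc]
      ring
    rw [e1, hs]
    simp only [val, List.map_cons, List.map_nil, List.sum_cons, List.sum_nil, List.prod_cons,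
      List.prod_nil, dif_pos hn0]
    push_cast
    ring
  · rintro ⟨-, -, A, b, h⟩
    by_contra hS
    have h1 := h (fun i => if i.1 = 0 then 1 else 0)
    set y := A.mulVec (fun i : Fin (hn (tsys S)) => if i.1 = 0 then (1 : ℝ) else 0) + b with hy
    rw [aeval_toPoly hf _ (fun i => if i = 0 then 1 else 0) (fun i => rfl),
      aeval_toPoly hg y (fun i => if h : i < hn (tsys S) then y ⟨i, h⟩ else 0)
      (fun i => by simp)] at h1
    have h2 := val_quart S (fun i => if h : i < hn (tsys S) then y ⟨i, h⟩ else 0)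
    have h3 := unsat_core hS (fun i => if h : i < hn (tsys S) then y ⟨i, h⟩ else 0)
    rw [← h1] at h2
    have h4 : val (fun i => if i = 0 then (1 : ℝ) else 0) [((1 : ℤ), [0, 0, 0, 0])] = 1 := by
      simp [val]
    rw [h4] at h2
    linarith

end Pool.Agent.Q230.AP

namespace Pool.Agent.NPC.Q230AP

open Pool.Agent.NPC Pool.Agent.NPC.ER Pool.Agent.H78R3.TSV Pool.Agent.Q230.QF
open Pool.Agent.Q230.AP Pool.Agent.NPC.Q230SN Pool.Agent.NPC.H78TSV

section

variable {α : Type} [TEnc α]

theorem poly_trm {g : α → QC} (hg : Poly g) : Poly (fun a => trm (g a)) :=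
  Poly.cons (Poly.fst hg) (Poly.cons (Poly.fst (Poly.snd hg)) (Poly.cons (Poly.snd (Poly.snd hg))
    (Poly.const [])))

theorem poly_sqt {m : α → ℕ} {t t' : α → QT} (hm : Poly m) (ht : Poly t) (ht' : Poly t') :
    Poly (fun a => sqt (m a) (t a) (t' a)) :=
  Poly.pair (Poly.imul (Poly.ineg (Poly.natCast hm)) (Poly.imul (Poly.fst ht) (Poly.fst ht')))
    (Poly.cons (Poly.fst (Poly.snd ht)) (Poly.cons (Poly.snd (Poly.snd ht))
      (Poly.cons (Poly.fst (Poly.snd ht')) (Poly.cons (Poly.snd (Poly.snd ht')) (Poly.const [])))))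

theorem poly_sqs {m : α → ℕ} {g : α → QC} (hm : Poly m) (hg : Poly g) :
    Poly (fun a => sqs (m a) (g a)) := by
  have gl := poly_trm hg
  refine Poly.flatMap (F := fun a (t : QT) => (trm (g a)).map fun t' => sqt (m a) t t') gl ?_
  refine Poly.map (F := fun (p : α × QT) (t' : QT) => sqt (m p.1) p.2 t')
    (gl.comp (Poly.fst Poly.id)) ?_
  exact poly_sqt (hm.comp (Poly.fst (Poly.fst Poly.id))) (Poly.snd (Poly.fst Poly.id))
    (Poly.snd Poly.id)

theorem poly_quart {S : α → List ER.Con} (hS : Poly S) : Poly (fun a => quart (S a)) := by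
  have hG := poly_gsys (poly_tsys hS)
  have ha := poly_aix hS
  refine Poly.cons (Poly.pair (Poly.const 1) (Poly.cons ha (Poly.cons ha (Poly.const [0, 0])))) ?_
  refine Poly.flatMap (F := fun a g => sqs (gsys (tsys (S a))).length g) hG ?_
  exact poly_sqs ((Poly.length hG).comp (Poly.fst Poly.id)) (Poly.snd Poly.id)

theorem poly_instP {S : α → List ER.Con} (hS : Poly S) : Poly (fun a => instP (S a)) :=
  Poly.pair (upoly_hn (poly_tsys hS)).toPoly (Poly.pair (Poly.const _) (poly_quart hS))

end

/-- The affine polynomial projection problem is `∃ℝ`-hard. -/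
theorem proj_hard : ERHard (lang AffineProjection) :=
  ERHard.of_sys (poly_instP Poly.id) sat_iff_proj

end Pool.Agent.NPC.Q230AP
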